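import Pool.Agent.Results.MP_caab05_ag.BigMonodromyTorsors
import Pool.Agent.U534.SymD

/-!
# The period conjecture for infinite sequences of fibres of families with big monodromy: the degree at most `d` part, and
# the torsor form relative to all motives

We use the definitions of the starting file `BigMonodromyTorsors`. Let `h_j`, `j = 0, 1, 2, …`, be families of G-functions
over `ℚ` (`GFamily`) and `P_j(x)` square matrices of polynomials, with arbitrary complex coefficients and of degree at most
`e_j`, in `log x` and in the functions `h_{j,l}(x)`: the period matrices (rows: Betti, columns: de Rham) of the cohomology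
of families `X_{j,x}` of smooth projective varieties over an open part of the line. Let `Gal(P_j)` be the differential
Galois group, the Zariski closure of the monodromy group. Let `M_0, M_1, M_2, …` be any sequence of de Rham-Betti objects
with arbitrary complex period matrices `C_i`, for example (the cohomology of) all smooth projective varieties over all
number fields. We take the fibre of the `j`-th family at `x = 1 / t_j`, where `t_0, t_1, …` are natural numbers, and everything
(`h_j`, `P_j`, `e_j`, `C_j`) may depend on the earlier parameters `τ = (t_0, …, t_(j-1))`: so the fibres may also be the fibres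
over the points `(1 / t_0, …, 1 / t_j)` of families with `j + 1` parameters, for example the hyperelliptic curves
`y² = (x - 1 / t_0) ⋯ (x - 1 / t_(2g))`, `g = 1, 2, 3, …`.

**Theorem.** There are exceptional sets `E_j(t_0, …, t_(j-1))` of natural numbers with at most
`A_j (1 + N / (x + N) ^ c_j)` elements in every interval `(x, x + N]`, where `c_j > 0` and `A_j` depend only on
the `h_i(t_0, …, t_(i-1))` and `e_i`, `i ≤ j`, and the ranks, such that the following holds for EVERY sequence
`t_0, t_1, …` with `t_j ∉ E_j(t_0, …, t_(j-1))` for all `j ≥ j₀`. Let `K` be any number field, `i` any index,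
`s_1 < … < s_k` with `max (j₀, [K : ℚ], i) ≤ s_1`, and `Z_l = P_{s_l}(1 / t_{s_l})`. Let the monodromy groups be big: `Gal(P_{s_l})` contains `special(B_l)`, where `B_l` is alternating and nondegenerate (the
symplectic case), or symmetric and nondegenerate of rank `≠ 2`, or zero, and let the `Z_l` respect the forms `Q_l` (de Rham)
and `B_l` (Betti), both over `K`: `Z_l Q_l Z_lᵀ = μ_l B_l`, `μ_l ≠ 0` (no condition if `B_l = 0`: take `Q_l = 0`).

I. (The period conjecture in degree at most `d`.) Let `d ≤ s_1`, all `B_l` symplectic and `μ_l = 2πi` (the normalisation for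
weight one; for a family of odd weight `w` multiply the period matrix by `(2πi)^((1-w)/2)`).

* Every polynomial of total degree at most `d` over `K` in `2πi`, the entries of `C_i` and the entries of `Z_1, …, Z_k`, which
  is zero, is zero for all matrices `Y_l` with `Y_l Q_l Y_lᵀ = 2πi B_l` in place of the `Z_l`: the periods of the fibres have
  no other relations with those of `M_i` than the Riemann relations.
* Every polynomial of total degree at most `d` over `K` in `2πi` and the entries of `Z_1, …, Z_k`, which is zero, vanishes on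
  the motivic torsor `{(z, Y_1, …, Y_k) : z ≠ 0, Y_l Q_l Y_lᵀ = z B_l}`. So the degree at most `d` part of the ideal of
  the relations over `K` is what Grothendieck's conjecture predicts, for the product of any finite number of the fibres
  with indices at least `max (j₀, [K : ℚ], d)`; there is no condition on the heights of the coefficients.

II. (The torsor form.) Let the `B_l` be of any of the three types. Let `c = C_i ⊕ ⨁_l Z_l` be the period matrix of `M = M_i ⊕ ⨁_l M_{s_l, t_{s_l}}`. Then for every
`K`-subtorsor `T` of `Iso(M_dR, M_B)` with `c ∈ T`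

1. `T` is stable under `1 × ∏_l special(B_l)`;
2. `T` is, in the torsor of all isomorphisms `x_0 ⊕ ⨁ X_l` which respect polarisations (for any forms `Q'_l` and factors), the
   full inverse image of its image under `(x_0, det X_1, …, det X_k)` (in the symplectic case the determinant is
   superfluous). So the dimension of the smallest `K`-subtorsor for `M` is `∑_l dim special(B_l)` plus the dimension for the sum
   of `M_i`, the determinants and the multipliers, for all `i` and all `k`, as Grothendieck's conjecture predicts: `M_i` and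
   the infinitely many fibres are as independent as the polarisations allow.
3. If `C_i = 2πi` (`M_i` is a sum of copies of `ℚ(-1)`) and `T` is contained in the torsor of the isomorphisms `z ⊕ ⨁ X_l` with
   `X_l Q_l X_lᵀ = z^(w_l) B_l` and `det X_l = δ_l z^(m_l)` then `T` is this torsor, of dimension
   `1 + ∑_l dim special(B_l)`.

The starting theorem `BigMonodromyTorsors` is about subtorsors, a fixed number `k` of families with one parameter, one object
`M_0`, number fields of degree at most `D`, and almost all `k`-tuples `t` in boxes, with an exceptional set which has no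
structure. Here there are infinitely many families, which may depend on the fibres chosen before, all `M_i` and all number
fields occur at the same time, the exceptional sets are sparse sets for one parameter after the other, and I is about
polynomial relations and not only about subtorsors. So almost all sequences (for example with independent `t_j` uniformly
distributed in `[1, N_j]`, if the `N_j` grow fast enough, by the lemma of Borel and Cantelli) and all sequences which avoid
these sets have the property.

Proof. I: a relation over `ℚ` of bounded degree between `2πi`, the entries of `C_0, …, C_j`, the periods of the earlier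
fibres and those of the last fibre is inherited by the translates of the last period matrix under the differential
Galois group, if `t_j` is outside of a sparse set (library, `Pool.Agent.Y120.R.gx`); the same follows for all relations over
number fields of degree at most `j` (library, `Pool.Agent.Y123.GN.desc_gal`). The torsor `{Y Q Yᵀ = 2πi B}` is
`{(2πi A₁ + A₂) g}`, where `A₁`, `A₂` have entries in `K` and `g` is in the symplectic group of `Q`; for `g` over `K` one gets
polynomials of the same degree over `K` in the periods of the other fibres, so that one can proceed by induction on the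
number of the fibres, and the `g` over `K` are dense, as the symplectic group is generated by transvections.
II: for the last block the theorem with `k = 1` is used, relative to all `C_i ⊕ ⨁_l Z_l`, `s_l < j`. That the
groups of the earlier blocks are still in the stabiliser `H` of `T` after a block has been added is not clear, as the earlier
parameters are fixed now; it is proved with an argument of Goursat (`Pool.Agent.U534.Big.goursat`): let `S` be the projection of
the elements of `T` which respect the form of the last block. Its Zariski closure over `K` is a `K`-subtorsor, by Galois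
descent for the automorphisms of `ℂ` over `K` (`Pool.Agent.U907.GP.descent`), so it is stable under the groups `G` of the
earlier blocks by induction. If `a`, `b` are in `S S⁻¹`, with lifts `(a, A)`, `(b, B)` in `H`, then `[A, B]` is in the special
group of the last block, as this block consists of similitudes, so `([a, b], 1) ∈ H`; the set of the pairs `(a, b)`
with this property is closed, so it contains all pairs in `G`, and `G` is perfect.
-/

set_option autoImplicit false

open scoped Matrix

namespace Pool.Agent.Results.MP_caab05_ag.BigMonodromySequences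

open Pool.Agent.Results.MP_caab05_ag.BigMonodromyTorsors

/-- The conclusion for one choice of fibres; `C₀` is the constant part and `Z l` is the period matrix of the `l`-th fibre. -/
def Conclusion (K : Subfield ℂ) {k r : ℕ} {n ρ : Fin k → ℕ} (C₀ : Matrix (Fin r) (Fin r) ℂ)
    (h : ∀ l, Fin (ρ l) → PowerSeries ℚ) (P : ∀ l, Fin (n l) → Fin (n l) → MvPolynomial (Option (Fin (ρ l))) ℂ)
    (Z : ∀ l, Matrix (Fin (n l)) (Fin (n l)) ℂ) : Prop :=
  ∀ T : Set (Matrix (Fin r ⊕ Σ l, Fin (n l)) (Fin r ⊕ Σ l, Fin (n l)) ℂ), IsSubtorsor K T → total C₀ Z ∈ T →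
  ∀ Q B : ∀ l, Matrix (Fin (n l)) (Fin (n l)) ℂ, (∀ l a b, Q l a b ∈ K) → (∀ l a b, B l a b ∈ K) →
  (∀ l, Classical (B l)) → (∀ l, special (B l) ≤ Gal (h l) (P l)) →
  (∀ l, ∃ μ : ℂ, μ ≠ 0 ∧ Z l * Q l * (Z l)ᵀ = μ • B l) →
  -- 1: stability
  (∀ g : ∀ l, Matrix.GeneralLinearGroup (Fin (n l)) ℂ, (∀ l, g l ∈ special (B l)) →
    ∀ x ∈ T, total 1 (fun l => (g l : Matrix (Fin (n l)) (Fin (n l)) ℂ)) * x ∈ T) ∧
  -- 2: the relative case
  (∀ (Q' : ∀ l, Matrix (Fin (n l)) (Fin (n l)) ℂ) (μ : Fin k → ℂ) (x₀ : Matrix (Fin r) (Fin r) ℂ)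
    (X Y : ∀ l, Matrix (Fin (n l)) (Fin (n l)) ℂ), Respects B Q' μ X → Respects B Q' μ Y →
    (∀ l, Symplectic (B l) ∨ (X l).det = (Y l).det) → total x₀ X ∈ T → total x₀ Y ∈ T) ∧
  -- 3: the absolute case
  (0 < r → C₀ = (2 * Real.pi * Complex.I : ℂ) • 1 → ∀ (w m : Fin k → ℤ) (δ : Fin k → ℂ),
    T ⊆ torsorOf r B Q w m δ → T = torsorOf r B Q w m δ)

/-- the values of all variables: `z`, the entries of `C₀` and the entries of the matrices `Y l` -/
noncomputable def values {k r : ℕ} {n : Fin k → ℕ} (z : ℂ) (C₀ : Matrix (Fin r) (Fin r) ℂ)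
    (Y : ∀ l, Matrix (Fin (n l)) (Fin (n l)) ℂ) : Option (Fin r × Fin r) ⊕ (Σ l, Fin (n l) × Fin (n l)) → ℂ :=
  Sum.elim (fun o => o.elim z fun v => C₀ v.1 v.2) fun v => Y v.1 v.2.1 v.2.2

/-- the values of the variables without `C₀`: `z` and the entries of the matrices `Y l` -/
noncomputable def valuesAbs {k : ℕ} {n : Fin k → ℕ} (z : ℂ) (Y : ∀ l, Matrix (Fin (n l)) (Fin (n l)) ℂ) :
    Option (Σ l, Fin (n l) × Fin (n l)) → ℂ := fun o => o.elim z fun v => Y v.1 v.2.1 v.2.2

/-- The period conjecture in degree at most `d` for the fibres with the period matrices `Z l`, relative to the constant part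
`C₀`, over the field `L`. -/
def DegreePart (L : Subfield ℂ) (d : ℕ) {k r : ℕ} {n ρ : Fin k → ℕ} (C₀ : Matrix (Fin r) (Fin r) ℂ)
    (h : ∀ l, Fin (ρ l) → PowerSeries ℚ) (P : ∀ l, Fin (n l) → Fin (n l) → MvPolynomial (Option (Fin (ρ l))) ℂ)
    (Z : ∀ l, Matrix (Fin (n l)) (Fin (n l)) ℂ) : Prop :=
  ∀ Q B : ∀ l, Matrix (Fin (n l)) (Fin (n l)) ℂ, (∀ l a b, Q l a b ∈ L) → (∀ l a b, B l a b ∈ L) →
  (∀ l, Symplectic (B l)) → (∀ l, special (B l) ≤ Gal (h l) (P l)) →
  (∀ l, Z l * Q l * (Z l)ᵀ = (2 * Real.pi * Complex.I : ℂ) • B l) →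
  -- the relative case
  (∀ F : MvPolynomial (Option (Fin r × Fin r) ⊕ (Σ l, Fin (n l) × Fin (n l))) L, F.totalDegree ≤ d →
    MvPolynomial.aeval (values (2 * Real.pi * Complex.I) C₀ Z) F = 0 →
    ∀ Y : ∀ l, Matrix (Fin (n l)) (Fin (n l)) ℂ, (∀ l, Y l * Q l * (Y l)ᵀ = (2 * Real.pi * Complex.I : ℂ) • B l) →
      MvPolynomial.aeval (values (2 * Real.pi * Complex.I) C₀ Y) F = 0) ∧
  -- the absolute case
  (∀ G : MvPolynomial (Option (Σ l, Fin (n l) × Fin (n l))) L, G.totalDegree ≤ d →
    MvPolynomial.aeval (valuesAbs (2 * Real.pi * Complex.I) Z) G = 0 →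
    ∀ (z : ℂ) (Y : ∀ l, Matrix (Fin (n l)) (Fin (n l)) ℂ), z ≠ 0 → (∀ l, Y l * Q l * (Y l)ᵀ = z • B l) →
      MvPolynomial.aeval (valuesAbs z Y) G = 0)

/-- the first `j` parameters -/
def first (t : ℕ → ℕ) (j : ℕ) : Fin j → ℕ := fun l => t l

theorem dc_map {L : Subfield ℂ} {σ : Type} {d : ℕ} {F : MvPolynomial σ L} (hF : F.totalDegree ≤ d) :
    Pool.Agent.Y113.DC d (Pool.Agent.U534.Sym.KS L) (MvPolynomial.map (algebraMap L ℂ) F) :=
  ⟨(Finset.sup_mono (MvPolynomial.support_map_subset _ _)).trans hF, fun m => by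
    rw [MvPolynomial.coeff_map]
    exact (F.coeff m).2⟩

theorem alg_of {K : Subfield ℂ} (hKf : FiniteDimensional ℚ K) : ∀ x ∈ K, IsAlgebraic ℚ x := by
  intro x hx
  have : NumberField K := { to_charZero := inferInstance, to_finiteDimensional := hKf }
  have h6 : IsAlgebraic ℚ (⟨x, hx⟩ : K) := Algebra.IsAlgebraic.isAlgebraic _
  exact h6.algebraMap (A := ℂ)

/-- **The theorem.** -/
theorem result (r ρ n : ℕ → ℕ) (e : ∀ j, (Fin j → ℕ) → ℕ) (T : ∀ j, (Fin j → ℕ) → Polynomial ℤ)
    (A : ∀ j, (Fin j → ℕ) → Fin (ρ j) → Fin (ρ j) → Polynomial ℤ) (h : ∀ j, (Fin j → ℕ) → Fin (ρ j) → PowerSeries ℚ)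
    (hG : ∀ j τ, GFamily (T j τ) (A j τ) (h j τ)) :
    ∃ c M : ∀ j, (Fin j → ℕ) → ℝ, (∀ j τ, 0 < c j τ) ∧
      ∀ P : (∀ j, (Fin j → ℕ) → Fin (n j) → Fin (n j) → MvPolynomial (Option (Fin (ρ j))) ℂ),
      (∀ j τ a b, (P j τ a b).totalDegree ≤ e j τ) → ∀ C : (∀ i, (Fin i → ℕ) → Matrix (Fin (r i)) (Fin (r i)) ℂ),
      ∃ E : ∀ j, (Fin j → ℕ) → Set ℕ,
      -- the exceptional sets are sparse
      (∀ (j : ℕ) (τ : Fin j → ℕ) (x N : ℕ), 1 ≤ N →
        ((E j τ ∩ Set.Ioc x (x + N)).ncard : ℝ) ≤ M j τ * (1 + N / ((x : ℝ) + N) ^ c j τ)) ∧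
      -- every sequence outside of the exceptional sets
      ∀ (t : ℕ → ℕ) (j₀ : ℕ), (∀ j, j₀ ≤ j → t j ∉ E j (first t j)) →
      ∀ K : Subfield ℂ, FiniteDimensional ℚ K → ∀ (i k : ℕ) (s : Fin k → ℕ), StrictMono s →
        (∀ l, j₀ ≤ s l ∧ Module.finrank ℚ K ≤ s l ∧ i ≤ s l) →
        -- I: the period conjecture in degree at most `d`
        (∀ d : ℕ, (∀ l, d ≤ s l) →
          DegreePart K d (C i (first t i)) (fun l => h (s l) (first t (s l))) (fun l => P (s l) (first t (s l)))
            fun l => perMat (h (s l) (first t (s l))) (P (s l) (first t (s l))) (t (s l) : ℝ)) ∧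
        -- II: the torsor form
        Conclusion K (C i (first t i)) (fun l => h (s l) (first t (s l))) (fun l => P (s l) (first t (s l)))
          fun l => perMat (h (s l) (first t (s l))) (P (s l) (first t (s l))) (t (s l) : ℝ) := by
  classical
  obtain ⟨c, M, hc, hcount⟩ := Pool.Agent.U534.Big.ex_count n ρ e h (fun j τ δ => fam (hG j τ) δ) r
  obtain ⟨c', M', hc', hM', hcount'⟩ := Pool.Agent.U534.Sym.exR_count n ρ e h (fun j τ δ => fam (hG j τ) δ) r
    (2 * Real.pi * Complex.I)
  refine ⟨fun j τ => min (c j τ) (c' j τ), fun j τ => max (M j τ) 0 + M' j τ, fun j τ => lt_min (hc j τ) (hc' j τ),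
    fun P hP C => ⟨fun j τ => Pool.Agent.U534.Big.Ex h P C j τ ∪
      Pool.Agent.U534.Sym.ExR h P C (2 * Real.pi * Complex.I) j τ, fun j τ x N hN => ?_, ?_⟩⟩
  · have h1 := hcount P hP C j τ x N hN
    have h2 := hcount' P hP C j τ x N hN
    have hxN : (1 : ℝ) ≤ (x : ℝ) + N := by
      have h4 : (1 : ℝ) ≤ N := by exact_mod_cast hN
      have h5 : (0 : ℝ) ≤ x := Nat.cast_nonneg _
      linarith
    have hpos : ∀ y : ℝ, (0 : ℝ) < ((x : ℝ) + N) ^ y := fun y => Real.rpow_pos_of_pos (by linarith) _
    have hdiv : ∀ y : ℝ, min (c j τ) (c' j τ) ≤ y →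
        (N : ℝ) / ((x : ℝ) + N) ^ y ≤ N / ((x : ℝ) + N) ^ (min (c j τ) (c' j τ)) := fun y hy =>
      div_le_div_of_nonneg_left (Nat.cast_nonneg _) (hpos _) (Real.rpow_le_rpow_of_exponent_le hxN hy)
    have h3 := hdiv _ (min_le_left (c j τ) (c' j τ))
    have h4 := hdiv _ (min_le_right (c j τ) (c' j τ))
    have hn1 : (0 : ℝ) ≤ 1 + N / ((x : ℝ) + N) ^ c j τ := by
      have := div_nonneg (Nat.cast_nonneg (α := ℝ) N) (hpos (c j τ)).le
      linarith
    have hn2 : (0 : ℝ) ≤ 1 + N / ((x : ℝ) + N) ^ (min (c j τ) (c' j τ)) := by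
      have := div_nonneg (Nat.cast_nonneg (α := ℝ) N) (hpos (min (c j τ) (c' j τ))).le
      linarith
    rw [Set.union_inter_distrib_right]
    have h5 : ((Pool.Agent.U534.Big.Ex h P C j τ ∩ Set.Ioc x (x + N) ∪
        Pool.Agent.U534.Sym.ExR h P C (2 * Real.pi * Complex.I) j τ ∩ Set.Ioc x (x + N)).ncard : ℝ) ≤
        ((Pool.Agent.U534.Big.Ex h P C j τ ∩ Set.Ioc x (x + N)).ncard : ℝ) +
        ((Pool.Agent.U534.Sym.ExR h P C (2 * Real.pi * Complex.I) j τ ∩ Set.Ioc x (x + N)).ncard : ℝ) := by
      exact_mod_cast Set.ncard_union_le _ _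
    refine h5.trans ((add_le_add h1 h2).trans ?_)
    rw [add_mul]
    refine add_le_add ?_ ?_
    · calc M j τ * (1 + N / ((x : ℝ) + N) ^ c j τ) ≤ max (M j τ) 0 * (1 + N / ((x : ℝ) + N) ^ c j τ) :=
            mul_le_mul_of_nonneg_right (le_max_left _ _) hn1
        _ ≤ _ := mul_le_mul_of_nonneg_left (by linarith) (le_max_right _ _)
    · exact mul_le_mul_of_nonneg_left (by linarith) (hM' j τ)
  intro t j₀ ht K hKf i k s hs hsl
  refine ⟨?_, ?_⟩
  · intro d hd Q B hQ hB hsp hGal hr
    have h1 := Pool.Agent.U534.Sym.seqR (h := h) (P := P) (C := C) (t := t) (j₀ := j₀)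
      Pool.Agent.Y123.GN.tpi_ne (fun j hj hm => ht j hj (Or.inr hm)) hKf d i k s hs
      (fun l => (hsl l).1) (fun l => (hsl l).2.1) hd (fun l => (hsl l).2.2) Q B hQ hB hsp hGal hr
    have hF : ∀ F : MvPolynomial (Option (Fin (r i) × Fin (r i)) ⊕ (Σ l, Fin (n (s l)) × Fin (n (s l)))) K,
        F.totalDegree ≤ d → MvPolynomial.aeval (values (2 * Real.pi * Complex.I) (C i (first t i)) fun l =>
          perMat (h (s l) (first t (s l))) (P (s l) (first t (s l))) (t (s l) : ℝ)) F = 0 →
        ∀ Y : ∀ l, Matrix (Fin (n (s l))) (Fin (n (s l))) ℂ,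
          (∀ l, Y l * Q l * (Y l)ᵀ = (2 * Real.pi * Complex.I : ℂ) • B l) →
          MvPolynomial.aeval (values (2 * Real.pi * Complex.I) (C i (first t i)) Y) F = 0 := by
      intro F hFd hF0 Y hY
      have h2 := h1 (MvPolynomial.map (algebraMap K ℂ) F) (dc_map hFd) (by
        rw [MvPolynomial.aeval_map_algebraMap]
        exact hF0) Y hY
      rw [MvPolynomial.aeval_map_algebraMap] at h2
      exact h2
    refine ⟨hF, ?_⟩
    intro G hGd hG0 z Y hz hY
    set G' : MvPolynomial (Option (Fin (r i) × Fin (r i)) ⊕ (Σ l, Fin (n (s l)) × Fin (n (s l)))) K :=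
      MvPolynomial.rename (fun o : Option (Σ l, Fin (n (s l)) × Fin (n (s l))) => o.elim (Sum.inl none) Sum.inr) G with hG'
    have hG'd : G'.totalDegree ≤ d := (MvPolynomial.totalDegree_rename_le _ _).trans hGd
    have hev : ∀ Y : ∀ l, Matrix (Fin (n (s l))) (Fin (n (s l))) ℂ,
        MvPolynomial.aeval (values (2 * Real.pi * Complex.I) (C i (first t i)) Y) G' =
          MvPolynomial.aeval (valuesAbs (2 * Real.pi * Complex.I) Y) G := by
      intro Y
      rw [hG', MvPolynomial.aeval_rename]
      congr 2
      funext o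
      rcases o with _ | v
      · rfl
      · rfl
    have hsQ : ∀ l, Pool.Agent.Y123.GN.Spf (Q l) := fun l =>
      (Pool.Agent.U534.Sym.spf_of Pool.Agent.Y123.GN.tpi_ne (hsp l) (hr l)).1
    have h2 := Pool.Agent.U534.Sym.mot (Pool.Agent.Y123.GN.tpi_tr (alg_of hKf)) hQ hB hsQ hsp
      (G := MvPolynomial.map (algebraMap K ℂ) G) (fun m => by
        rw [MvPolynomial.coeff_map]
        exact (G.coeff m).2) (fun Y hY => by
        rw [MvPolynomial.aeval_map_algebraMap]
        have h3 := hF G' hG'd (by
          rw [hev]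
          exact hG0) Y hY
        rw [hev] at h3
        exact h3) hz hY
    rw [MvPolynomial.aeval_map_algebraMap] at h2
    exact h2
  intro T hT hcT Q B hQ hB hcl hGal hr
  have hT' := Pool.Agent.Y123.ST.subT_iff.1 hT
  have hKalg : ∀ x ∈ K, IsAlgebraic ℚ x := alg_of hKf
  have h1 := Pool.Agent.U534.Big.seqB (h := h) (P := P) (C := C) (t := t) (j₀ := j₀)
    (fun j hj hm => ht j hj (Or.inl hm)) hKf i k s hs
    (fun l => (hsl l).1) (fun l => (hsl l).2.1) (fun l => (hsl l).2.2) Q B hQ hB hcl hGal hr T hT' hcT
  refine ⟨h1, ?_, ?_⟩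
  · intro Q' μ x₀ X Y hX hY hd hx
    exact Pool.Agent.Y123.GN.fibre_full hT' h1 hX.1 hx hX.2 hY.2 hd
  · intro hr0 hC₀ w m δ hTF
    have hne : Nonempty (Fin (r i)) := ⟨⟨0, hr0⟩⟩
    rw [hC₀] at hcT
    exact Pool.Agent.Y123.GN.absolute hKalg hT' hcT h1 hTF

end Pool.Agent.Results.MP_caab05_ag.BigMonodromySequences
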