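import Pool.Agent.S821.SmallM
import Pool.Agent.Results.MP_caab05_ag.LegendreGrowingDegrees

/-!
# Grothendieck's period conjecture in growing degree for the Legendre curves at ALL coprime divisors of almost all integers

Let `E_z : y² = x (x - 1) (x - z)`, `z = 1 / t`, `t ≥ 2`; the periods of `E_(1/t)` are, up to algebraic numbers, `π`, `K(1/t)`,
`E(1/t)`, `K(1 - 1/t)` (Legendre's relation expresses the fourth one). For pairwise coprime `t_1, …, t_k` the period conjecture
for the product `E_(1/t_1) × ⋯ × E_(1/t_k)` says, if its motivic Galois group has the maximal dimension `3 k + 1`, that the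
`3 k + 1` numbers are algebraically independent, and more generally that the `3 k` periods of this product are algebraically
independent over the field generated by the periods of any further curves `E_(1/s_1), …, E_(1/s_l)` in general position.

We show: for almost all integers `m`, for ALL pairwise coprime divisors `s_1, …, s_l`, `t_1, …, t_k` of `m`, of any size, the
periods of the curves `E_(1/t_i)` with `t_i ≥ ψ(m)` satisfy no nontrivial relation of degree `≤ δ` over the field generated by a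
number field of degree `≤ δ`, by `π`, by arbitrary further constants `w_1, …, w_q` and by the periods of all the other curves
`E_(1/s_j)`. Here `ψ` tends to infinity as slowly as we like, `δ + 2 = (log_2 min t_i) ^ (1 / C)`, there is no bound for the
heights of the coefficients, and `k`, `l`, `q` may be any numbers up to a function `K(m)` which tends to infinity. In particular
this holds for all large prime factors `t_i` of `m`, and relations of bounded degree between the periods of the curves at the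
prime factors of a typical integer can only come from its bounded prime factors. The number of the exceptions `m ≤ N`, for
`t_i ≥ y` and the degree `δ`, is at most `C (δ + 2)^C y^(-1/(δ + 2)^C) N`, uniformly in `w`, `δ`, `y`, `N`; the same holds for
the prime factors up to `N^(1/(k + l))` of the values of any polynomial.

The starting theorem `LegendreGrowingDegrees` bounds the number of the related tuples in cubes and in short windows. This does
not suffice here: the divisors of an integer are of very different sizes, and the bound `C T^(k - c)` does not exclude that all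
the pairs `(t_1, t_2)` with `t_1 ≤ t_2^(1 - c)` are related.

Proof. For fixed small divisors `s` their periods are additional constants; the exceptional integers with given `s` are at most
`C y^(-c) N / (s_1 ⋯ s_l)`, and the sum over all `s_i ≤ y` costs a power of `log y`; the divisors `s_i > y` can be added to the
`t_i`. For fixed constants the `t_i` are ordered by size; a related tuple has a first place where the periods at `t_j` are
related to those at the smaller `t_i` and to the constants. The number of such `t_j ≤ X` is at most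
`C X^(1 - 1/(δ + 2)^C)` uniformly in the smaller ones (the windows of the starting library `Pool.Agent.R351.GD`), and the sum of
`1 / (t_j ⋯ t_k)` over these minimal tuples is at most `C (δ + 2)^C y^(-c)` (`Pool.Agent.S821.Split`, `SplitM`, `Small`,
`SmallM`). The exceptions are summed over all degrees.
-/

set_option autoImplicit false

open Filter

namespace Pool.Agent.Results.MP_caab05_ag.CoprimeDivisors

open Module
open Pool.Agent.N826.IT.Orb (AlmostAll)
open Pool.Agent.S821.Small (LawS PairwiseCoprime RelS gen_lawS relK_move growingS)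
open Pool.Agent.R351.GD (RelK)
open Pool.Agent.Results.MP_caab05_ag.LegendreGrowingDegrees (K E periods PeriodRelation)

/-- The constants: `π`, the numbers `w` and the periods of the curves `E_(1/s_j)`. -/
noncomputable def consts {q l : ℕ} (w : Fin q → ℂ) (s : Fin l → ℕ) (o : Option (Fin q ⊕ Fin l × Fin 3)) : ℂ :=
  o.elim (Real.pi : ℂ) (Sum.elim w (periods s))

/-- A polynomial of total degree at most `δ` over some number field of degree at most `δ` vanishes at `π`, the `w_j`, the
periods `K(1/s_j)`, `E(1/s_j)`, `K(1 - 1/s_j)` and the periods `K(1/t_i)`, `E(1/t_i)`, `K(1 - 1/t_i)`, but it does not vanish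
identically in the periods of the `t_i` after the substitution of `π`, `w` and the periods of the `s_j` alone. -/
def RelatedOver {q l k : ℕ} (δ : ℕ) (w : Fin q → ℂ) (s : Fin l → ℕ) (t : Fin k → ℕ) : Prop :=
  ∃ F : IntermediateField ℚ ℂ, FiniteDimensional ℚ F ∧ finrank ℚ F ≤ δ ∧
    ∃ P : MvPolynomial (Option (Fin q ⊕ Fin l × Fin 3) ⊕ Fin k × Fin 3) F, P.totalDegree ≤ δ ∧
      MvPolynomial.aeval (Sum.elim (consts w s) (periods t)) P = 0 ∧
      MvPolynomial.aeval (Sum.elim (fun o => MvPolynomial.C (consts w s o)) MvPolynomial.X) P ≠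
        (0 : MvPolynomial (Fin k × Fin 3) ℂ)

/-- the law, polynomial in the degree -/
theorem law_leg (l k q : ℕ) : ∃ C : ℕ, 1 ≤ C ∧ ∀ (δ : ℕ) (w : Fin q → ℂ),
    LawS l k (fun s t => (∃ i, t i < 2) ∨ RelatedOver δ w s t) (1 / ((δ : ℝ) + 2) ^ C) (C * ((δ : ℝ) + 2) ^ C) := by
  obtain ⟨C, hC1, hC⟩ := gen_lawS (Θ := Unit) (fun _ => Pool.Agent.Y113.per) 2 l k (q + 1) (by
    intro Q
    obtain ⟨E, hEp, hE⟩ := Pool.Agent.R351.GD.leg_window 1 Q
    refine ⟨Q + 2, E, hEp, fun _ δ w H n hn S hS => ?_⟩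
    obtain ⟨S', hS', h⟩ := hE δ H n hn (Fin Q) w (by rw [Fintype.card_fin])
    refine (Finset.card_le_card fun s hs => ?_).trans hS'
    by_contra hcon
    obtain ⟨-, h2, h3, h4⟩ := hS s hs
    refine h (fun _ => s) (fun i j _ => Subsingleton.elim i j) (fun _ => ⟨h2.le, h3, hcon⟩) ?_
    have h5 := h4.embed (fun o : Option (Fin Q) => o.elim (Real.pi : ℂ) w) some (fun _ => rfl)
      (Equiv.uniqueProd (Fin 3) (Fin 1)).symm
    exact h5)
  refine ⟨C, hC1, fun δ w => (hC δ (Fin.cons (Real.pi : ℂ) w)).mono fun s t ht => ?_⟩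
  rcases ht with ht | ht
  · exact Or.inl ht
  · refine Or.inr ⟨fun _ => (), fun _ => (), ?_⟩
    have h3 : RelK δ (consts w s) (periods t) := ht
    refine relK_move h3 _ _ id Function.injective_id (fun _ => rfl) fun o => ?_
    rcases o with _ | (j | p)
    · exact ⟨Sum.inl (Sum.inl 0), rfl, fun _ h => by cases h⟩
    · exact ⟨Sum.inl (Sum.inl j.succ), rfl, fun _ h => by cases h⟩
    · exact ⟨Sum.inl (Sum.inr p), rfl, fun _ h => by cases h⟩

/-- **All coprime divisors of almost all integers.** There is a function `C(l, k, q)` with the following properties.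

(1) For all `l`, `k`, `q`, `δ`, all `w ∈ ℂ^q` and all `y ≥ 2`, `N ≥ 1`: for all integers `m ≤ N` but at most
`C (δ + 2)^C y^(-1/(δ + 2)^C) N`, for ALL pairwise coprime divisors `s_1, …, s_l`, `t_1, …, t_k` of `m` with `t_i ≥ y` there is no
relation of degree at most `δ` over a number field of degree at most `δ` between `π`, `w`, the periods of the curves `E_(1/s_j)`
and `E_(1/t_i)` which is nontrivial in the periods of the `E_(1/t_i)`.

(2) For every integral polynomial `f ≠ 0` and `l`, `k`, `q` there is `C'` such that for all `δ`, `w`, `y ≥ 2`, `N ≥ 1`, for all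
integers `m ≤ N` but at most `C' (δ + 2)^C y^(-1/(δ + 2)^C) N`, the same is true for all distinct prime factors `s_1, …, s_l`,
`t_1, …, t_k` of `f(m)` with `s_j, t_i ≤ N^(1/(l + k))`, `t_i ≥ y`.

(3) Let `w_0, w_1, …` be any complex numbers. For every function `ψ` which tends to infinity there is a function `K` which tends
to infinity such that for almost all `m`, for all `l, k, q ≤ K(m)`, `k ≥ 1`, all `δ` and all pairwise coprime divisors
`s_1, …, s_l`, `t_1, …, t_k` of `m` with `t_i ≥ ψ(m)` and `t_i ≥ 2^((δ + 2)^C)` there is no relation as in (1) with the first `q`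
numbers `w`.

(4) Every nontrivial relation of degree at most `δ` over a number field of degree at most `δ` between `π` and the `3 k` periods of
the `E_(1/t_i)` is a relation as in (1), for all `w` and `s`. -/
theorem result : ∃ C : ℕ → ℕ → ℕ → ℕ,
    (∀ (l k q δ : ℕ) (w : Fin q → ℂ) (y N : ℕ), 2 ≤ y → 1 ≤ N →
        ({m : ℕ | 1 ≤ m ∧ m ≤ N ∧ ∃ (s : Fin l → ℕ) (t : Fin k → ℕ), (∀ i, s i ∣ m) ∧ (∀ i, t i ∣ m ∧ y ≤ t i) ∧
          PairwiseCoprime s t ∧ RelatedOver δ w s t}.ncard : ℝ) ≤
          C l k q * ((δ : ℝ) + 2) ^ C l k q * (y : ℝ) ^ (-(1 / ((δ : ℝ) + 2) ^ C l k q)) * N) ∧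
    (∀ f : Polynomial ℤ, f ≠ 0 → ∀ l k q : ℕ, ∃ C' : ℝ, ∀ (δ : ℕ) (w : Fin q → ℂ) (y N : ℕ), 2 ≤ y → 1 ≤ N →
        ({m : ℕ | 1 ≤ m ∧ m ≤ N ∧ ∃ (s : Fin l → ℕ) (t : Fin k → ℕ),
          (∀ i, (s i).Prime ∧ (s i : ℤ) ∣ f.eval (m : ℤ) ∧ s i ^ (l + k) ≤ N) ∧
          (∀ i, (t i).Prime ∧ (t i : ℤ) ∣ f.eval (m : ℤ) ∧ y ≤ t i ∧ t i ^ (l + k) ≤ N) ∧ PairwiseCoprime s t ∧
          RelatedOver δ w s t}.ncard : ℝ) ≤
          C' * ((δ : ℝ) + 2) ^ C l k q * (y : ℝ) ^ (-(1 / ((δ : ℝ) + 2) ^ C l k q)) * N) ∧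
    (∀ (w : ℕ → ℂ) (ψ : ℕ → ℕ), Tendsto ψ atTop atTop →
      ∃ K : ℕ → ℕ, Tendsto K atTop atTop ∧ AlmostAll (fun m => ∀ l ≤ K m, ∀ k ≤ K m, 1 ≤ k → ∀ q ≤ K m, ∀ (δ : ℕ)
        (s : Fin l → ℕ) (t : Fin k → ℕ), (∀ i, s i ∣ m) → (∀ i, t i ∣ m ∧ ψ m ≤ t i ∧ 2 ^ ((δ + 2) ^ C l k q) ≤ t i) →
          PairwiseCoprime s t → ¬ RelatedOver δ (fun j : Fin q => w j) s t)) ∧
    (∀ (l k q δ : ℕ) (w : Fin q → ℂ) (s : Fin l → ℕ) (t : Fin k → ℕ), PeriodRelation δ t → RelatedOver δ w s t) := by
  choose C hC1 hC using law_leg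
  refine ⟨fun l k q => 3 * C l k q, ?_, ?_, ?_, ?_⟩
  · intro l k q δ w y N hy _
    have hδ : (1 : ℝ) ≤ (δ : ℝ) + 2 := by linarith [(Nat.cast_nonneg δ : (0 : ℝ) ≤ δ)]
    have h2 := (hC l k q δ w).mono_const (c' := 1 / ((δ : ℝ) + 2) ^ (3 * C l k q))
      (C' := ((3 * C l k q : ℕ) : ℝ) * ((δ : ℝ) + 2) ^ (3 * C l k q))
      (one_div_le_one_div_of_le (by positivity) (pow_le_pow_right₀ hδ (by omega)))
      (mul_le_mul (by exact_mod_cast (by omega : C l k q ≤ 3 * C l k q))
        (pow_le_pow_right₀ hδ (by omega)) (by positivity) (by positivity)) (by positivity)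
    refine le_trans (Nat.cast_le.2 (Set.ncard_le_ncard ?_ ((Set.finite_Icc 1 N).subset fun m hm => ⟨hm.1, hm.2.1⟩)))
      (h2.nat (by omega : 1 ≤ y))
    rintro m ⟨hm1, hm2, s, t, h3, h4, h5, h6⟩
    exact ⟨hm1, hm2, s, t, h3, h4, h5, Or.inr h6⟩
  · intro f hf l k q
    refine ⟨2 * C l k q * ((f.natDegree + f.leadingCoeff.natAbs : ℕ) : ℝ) ^ (l + k), fun δ w y N hy hN => ?_⟩
    have hδ : (1 : ℝ) ≤ (δ : ℝ) + 2 := by linarith [(Nat.cast_nonneg δ : (0 : ℝ) ≤ δ)]
    have h2 := (hC l k q δ w).mono_const (c' := 1 / ((δ : ℝ) + 2) ^ (3 * C l k q))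
      (C' := ((C l k q : ℕ) : ℝ) * ((δ : ℝ) + 2) ^ (3 * C l k q))
      (one_div_le_one_div_of_le (by positivity) (pow_le_pow_right₀ hδ (by omega)))
      (mul_le_mul_of_nonneg_left (pow_le_pow_right₀ hδ (by omega)) (by positivity)) (by positivity)
    refine le_trans (Nat.cast_le.2 (Set.ncard_le_ncard ?_ ((Set.finite_Icc 1 N).subset fun m hm => ⟨hm.1, hm.2.1⟩)))
      ((h2.poly (by positivity) f hf (by omega : 1 ≤ y) hN).trans (le_of_eq (by ring)))
    rintro m ⟨hm1, hm2, s, t, h3, h4, h5, h6⟩
    exact ⟨hm1, hm2, s, t, h3, h4, h5, Or.inr h6⟩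
  · intro w ψ hψ
    obtain ⟨K, hK, h⟩ := Pool.Agent.S821.Split.growth_fin (ι := (ℕ × ℕ) × ℕ)
      (fun K => (Finset.range (K + 1) ×ˢ Finset.range (K + 1)) ×ˢ Finset.range (K + 1))
      (fun i j hij => Finset.product_subset_product (Finset.product_subset_product
        (Finset.range_mono (by omega)) (Finset.range_mono (by omega))) (Finset.range_mono (by omega)))
      (fun a m => 1 ≤ a.1.2 → ∀ (δ : ℕ) (s : Fin a.1.1 → ℕ) (t : Fin a.1.2 → ℕ), (∀ i, s i ∣ m) →
          (∀ i, t i ∣ m ∧ ψ m ≤ t i ∧ 2 ^ ((δ + 2) ^ (3 * C a.1.1 a.1.2 a.2)) ≤ t i) →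
          PairwiseCoprime s t → ¬ ((∃ i, t i < 2) ∨ RelatedOver δ (fun j : Fin a.2 => w j) s t))
      (fun a => by
        by_cases ha : 1 ≤ a.1.2
        · exact Pool.Agent.N826.IT.Orb.almostAll_mono (growingS ha (hC1 _ _ _) (a := C a.1.1 a.1.2 a.2) (by positivity)
            (fun δ s t => (∃ i, t i < 2) ∨ RelatedOver δ (fun j : Fin a.2 => w j) s t)
            (fun δ => hC a.1.1 a.1.2 a.2 δ _) ψ hψ) fun m hm _ => hm
        · exact Pool.Agent.N826.IT.Orb.almostAll_true fun m h => absurd h ha)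
    refine ⟨K, hK, Pool.Agent.N826.IT.Orb.almostAll_mono h fun m hm l hl k hk hk1 q hq δ s t hs ht hst hr => ?_⟩
    exact hm ((l, k), q) (by
      rw [Finset.mem_product, Finset.mem_product]
      exact ⟨⟨Finset.mem_range.2 (Nat.lt_succ_of_le hl), Finset.mem_range.2 (Nat.lt_succ_of_le hk)⟩,
        Finset.mem_range.2 (Nat.lt_succ_of_le hq)⟩) hk1 δ s t hs ht hst (Or.inr hr)
  · intro l k q δ w s t ht
    obtain ⟨F, hF, hFd, P, hne, hP, hP0⟩ := ht
    exact Pool.Agent.R351.GD.relK_of_pi (periods t) (Sum.elim w (periods s)) F hF hFd P hP hP0 hne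

end Pool.Agent.Results.MP_caab05_ag.CoprimeDivisors
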