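import Pool.Agent.U400.PD.Main

set_option autoImplicit false

/-!
# The torsors of periods of motives whose Mumford-Tate domain is a polydisc

Let `A` be an abelian variety over `ℚ̄` and let `M` be any André motive over `ℚ̄` in the tensor
category generated by `h^1(A)` and the Tate motives. Let `P` be the matrix of the periods of `M`, and
let `G ⊆ GL(H_B(M))` be *any* algebraic group over `ℚ` such that the comparison isomorphism of `M` is a
point of a torsor of `G` defined over `ℚ̄`: `P T ∈ G(ℂ)` for some matrix `T` with algebraic entries. By
theorems of Deligne and André the motivic Galois group of `M` is the Mumford-Tate group `MT(M)`. The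
equality in Q1 implies that every such `G` contains `MT(M)` (if `G` does not contain `MT(M)`, then the
intersection of the two groups has smaller dimension, and the transcendence degree is at most this
dimension); this is also equivalent to: all de Rham-Betti classes in the tensor constructions of `M`
are Hodge classes.

Let `𝔤` be the Lie algebra of the endomorphisms of `H_1(A, ℚ)` which annihilate all classes that are
Hodge classes and de Rham-Betti classes; it is the Lie algebra of the Hodge group of `A`.

**Planes** (`IsPlane`, `PlanarFamily`). A plane `W` is a direct summand of the `𝔤`-module `H_1(A, ℂ)`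
which is simple and of dimension two, with the inclusion `P` and the projection `Q`. The summand `W`
need not be defined over `ℚ`, and nothing is assumed about the action of `𝔤` on the complement of `W`.
We consider a finite family of planes `W i`. Every two of them should satisfy one of the following
conditions.

* `SameColour`: `[𝔤, 𝔤]` acts on the two planes by equivalent representations;
* `Linked`: there are planes `W i'` and `W j'` of the same colours, such that every element of `𝔤` has
  the same trace on `W i'` and on `W j'`;
* `Separated`: for some automorphism `s` of the field `ℂ` the representations of `[𝔤, 𝔤]` which are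
  conjugate to the two planes belong to real places of different kinds: to `sl(2, ℝ)` and to `su(2)`.

**The domain of `M`** (`DomainOf`). We assume that the elements of `[𝔤, 𝔤] ⊗ ℂ` which act trivially on
all the planes act on `M` by matrices which commute with the complex structure `N` of `M` (the
generator of the Lie algebra of the circle in the Hodge structure of `M`): in other words, the part of
the Hodge group of `A` which acts trivially on the planes acts trivially on the Mumford-Tate domain of
`M`. Nothing else is assumed about `M`.

**Theorem.** 1. `G` contains the derived group of `MT(M)`: for all elements `Z` of the derived algebra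
of the Lie algebra of the Hodge group of `M`, and all complex numbers `t`, the matrix `exp (t Z)` is in
`G`. 2. If `A` has no factor of type IV, or if the centre of the Lie algebra of the Hodge group acts
trivially on `M`, then `G` contains `MT(M)`.

## Which motives are these? (Explanations, not part of the statement)

The theorem covers **all motives of abelian type whose Mumford-Tate domain is a polydisc** (a product
of copies of the upper half plane). Let `M` be such a motive, in the tensor category of `h^1(A')`. The
adjoint group of `MT(M)` is the product of the groups `Res_{F_j/ℚ} PGL_1(D_j)`, for totally real number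
fields `F_j` and quaternion algebras `D_j` over `F_j`; let `Σ_j` be the set of the real places of `F_j`
where `D_j` is split. It is not empty, and `[𝔤, 𝔤] ⊗ ℂ` is the sum of copies of `sl(2)`, one for every
real place of every `F_j` (and of factors which act trivially on `M`). The copies of `sl(2)` for the
places outside of the sets `Σ_j` act trivially on the domain. So one needs a plane `W σ` on which the
copy of `sl(2)` with the index `σ` acts by its standard representation, and the others trivially, for
every `σ ∈ Σ_j` and every `j`. The required abelian variety is `A = A' × A''`, where `A''` is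
a product of the abelian varieties of Shimura and Deligne: for a subfield `F_0` of `F_j` such that `Σ_j`
is the preimage of a set `Σ_0` of real places of `F_0`, and a totally imaginary quadratic extension
`K_0` of `F_0`, there is an abelian variety with `H_1 = D_j ⊗ K_0` (tensor product over `F_0`). The
circle acts on it through `D_j` at the places in `Σ_j`, and through the scalars in `K_0` (which
are determined by a choice of embeddings of `K_0` above the places outside of `Σ_0`) at the other
places. So the Hodge group acts on `H_1 ⊗ ℂ` by the sum of the representations `Std_σ ⊗ χ`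
(twice), where the character `χ` of the centre depends only on the embedding of `K_0`. (For
`F_0 = F_j` this exists for all `F_j` and `D_j`.)

Let `σ` and `τ` be two elements of the sets `Σ_j` and `Σ_j'`. There are two cases. Either there is an
automorphism `s` of `ℂ` such that exactly one of the two real places `s σ` and `s τ` is in the
sets `Σ_j`, `Σ_j'`; then the two planes are separated (in one of the two orders). Or the set of the `s`
with `s σ ∈ Σ_j` is equal to the set of the `s` with `s τ ∈ Σ_j'`. Then this set is stable under
the automorphisms which fix `σ(F_j)` or `τ(F_j')`, so that it is the set of the `s` for which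
the restriction to `F_0 = σ(F_j) ∩ τ(F_j')` is in a set `Σ_0`. We take the same `K_0`, and the same
embeddings of `K_0`, for `j` and for `j'`; then `Std_σ ⊗ χ` and `Std_τ ⊗ χ` have equal traces on `𝔤`,
and the two planes are linked.

Examples:

* products of elliptic curves, abelian surfaces with quaternionic multiplication, abelian varieties of
  dimension `d` with multiplication by a totally real field of degree `d` and of dimension `2 d` with
  multiplication by a totally indefinite quaternion algebra over such a field, and all motives in the
  tensor category which they generate together with their forms twisted by abelian varieties with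
  complex multiplication (`Sym^k`, exterior powers, tensor products);
* Mumford's fourfolds (`F` cubic, one place in `Σ`), their generalizations to other fields and to
  other sets `Σ` (the tensor representations with one factor in `Σ` at a time), and products of such
  abelian varieties, for fields `F_j` which can be equal, conjugate or linearly disjoint;
* the motives on all quaternionic Shimura varieties which are of abelian type (the motives of the
  families of abelian varieties over the quaternionic Shimura varieties of PEL type of any dimension,
  also those with compact places).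

Known before in this library: the case of one noncompact place (`BallMotives` in dimension one) and
the de Rham-Betti classes on the powers of the abelian varieties with maximal real multiplication
(`MaximalRealMult` in `Pool/Agent/Results/MP_bf54cf_ag`: products of abelian varieties of `GL(2)`-type
without complex multiplication, where all real places are noncompact, and of abelian varieties with
complex multiplication under a condition on the centre). New here: several noncompact places, in one
or in several fields, together with compact places, and arbitrary twists. For products of balls of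
dimension at least two (`ProductsOfBalls`) the method for the pairs of noncompact places is different
(it is not sufficient for discs, as the standard representation of `sl(2)` is self-dual and has rank
one).

Nothing is assumed about periods: `AbVar` is the description of an abelian variety over `ℚ̄` by theta
functions (see `Pool/Agent/Y102/AVDefs.lean`, where it is explained why every abelian variety has it),
and the transcendence theorems which are used, the theorem of Schneider and Lang and the
transcendence of `π`, are proved in this repository.

## Motives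

As `h^1(A)` is dual to `h^1(A)(1)`, the motive `M` is a direct factor of a sum of motives
`h^1(A) ^ {⊗ r i} (w i)`. Its Betti realization is a space of families of multilinear forms with
rational values, in `r i` variables in `H_1(A, ℚ)`, with a basis `B`. It is the image of a motivated
projector, and the realizations of motivated classes are Hodge classes and de Rham-Betti classes; so
it is stable under `𝔤` (`InLie`), and under the weights. The de Rham realization has a basis which
consists of combinations of products of elements of `H^1_dR(A / ℚ̄)` with algebraic coefficients. The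
matrix `P` of the periods expresses it in terms of the basis `(2 π i) ^ (w i) B` of the Betti
realization (`IsMotive`).

## Proof

Let `L` be the Lie algebra of `G`, and let `𝔮` be the set of the `X` in `𝔤` whose action on `M` is in
`L` up to a multiple of the weight operator. By the theorem of Schneider and Lang `𝔮` acts semisimply on
`H_1(A, ℚ)`, with the same commutant as `𝔤` (`Pool.Agent.N208.AM.qM_full`); so the associative
algebras generated by `𝔮 ⊗ ℂ` and by `𝔤 ⊗ ℂ` are equal.

1. `𝔮 ⊗ ℂ` acts irreducibly on every plane, so `[𝔮, 𝔮] ⊗ ℂ` acts on it by `sl(2)`.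
2. (`Pool.Agent.U400.PD.core`, Goursat's lemma.) A Lie algebra of families of traceless matrices of
   size two which acts by `sl(2)` on every plane, and such that no two of the planes are
   equivalent, consists of all families of traceless matrices. So we have to show that the
   restrictions to `[𝔮, 𝔮] ⊗ ℂ` of two planes of different colours are not equivalent.
3. Linked planes (`Planar.surj_two`): suppose that all elements of `𝔤` have the same traces on `W i` and
   `W j`. The two planes are not equivalent for `𝔤`, so by the theorem of Schneider and Lang not for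
   `𝔮`. If they are equivalent for `[𝔮, 𝔮]`, by an isomorphism `Z`, then `Z` transforms the
   traceless parts of the actions of `𝔮` into each other, and as the traces are equal, it is an
   isomorphism for `𝔮`.
4. Separated planes (`Planar.sep`): if the planes are equivalent for `[𝔮, 𝔮]`, then the traces of the
   squares are equal for all `X ∈ [𝔮, 𝔮]`, and the same is true after the application of `s`. For the
   plane `W j` these numbers are `≤ 0`; so they are `≤ 0` for `W i`, for the elements of `[𝔮, 𝔮]` and, by
   continuity, for the real span `R` of the conjugates of their matrices. As `[𝔮, 𝔮] ⊗ ℂ` acts on `W i`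
   by `sl(2)`, one has `sl(2) = R + i R`; as the trace form is real on the conjugates of the matrices of
   the elements of `[𝔤, 𝔤]` on `W i`, and it is not degenerate, these matrices are in `R`. So the form
   is nowhere positive on them, a contradiction.
5. Therefore `[𝔮, 𝔮] ⊗ ℂ` and `[𝔤, 𝔤] ⊗ ℂ` have the same image in the endomorphisms of the sum of the
   planes (`Pool.Agent.U400.PD.det_of`). Let `m` and `e` be the real spans of the actions of `[𝔤, 𝔤]`
   and `[𝔮, 𝔮]` on `M`, and let `n` be the ideal of the real parts of the actions on `M` of the elements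
   of `[𝔤, 𝔤] ⊗ ℂ` which act trivially on the planes. Then `m = e + n`, and `n` commutes with `N`; by a
   lemma on Cartan involutions (`Pool.Agent.N113.BT.mem_of_sup`, proved for `BallMotives`) `N` is in
   `e` up to the centre (`Pool.Agent.U400.PD.main_der`, `Pool.Agent.U400.PD.main_B`).
-/

open Module Matrix Pool.Agent.Y102 Pool.Agent.W516.DR Pool.Agent.H204R3.GP

noncomputable section

namespace Pool.Agent.Results.MP_caab05_ag.PolydiscMotives

variable {g : ℕ} (A : AbVar g)

/-! ### The Lie algebra -/

/-- The multilinear forms in `2m` variables in the rational homology. -/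
abbrev Form (m : ℕ) : Type := MultilinearMap ℚ (fun _ : Fin m × Fin 2 => A.H1) ℚ

/-- `φ` is a de Rham-Betti class in `H^1(A) ^ {⊗ 2m} (m)`. -/
def IsDRB {m : ℕ} (φ : Form A m) : Prop :=
  IsDeRhamBettiForm QBar A.dR (2 * Real.pi * Complex.I) m φ

/-- `φ` is a Hodge class in `H^1(A) ^ {⊗ 2m} (m)`. -/
def IsHodge {m : ℕ} (φ : Form A m) : Prop := IsHodgeTensor (A.per : A.H1 →+ (Fin g → ℂ)) φ

/-- The endomorphism `X` annihilates the form `φ` (as a derivation). -/
def Annihilates {m : ℕ} (X : Module.End ℚ A.H1) (φ : Form A m) : Prop :=
  ∀ v, ∑ k, φ (Function.update v k (X (v k))) = 0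

/-- `X` is in the Lie algebra `𝔤`: it annihilates all classes that are Hodge classes and
de Rham-Betti classes. -/
def InLie (X : Module.End ℚ A.H1) : Prop :=
  ∀ (m : ℕ) (φ : Form A m), IsHodge A φ → IsDRB A φ → Annihilates A X φ

/-- The algebra of the endomorphisms of `H_1(A, ℂ)`, as matrices for the basis of the lattice. -/
abbrev EndC (_ : AbVar g) : Type := Matrix (Fin (2 * g)) (Fin (2 * g)) ℂ

/-- The matrix of the extension of an endomorphism of `H_1(A, ℚ)` to `H_1(A, ℂ)`. -/
def toC (X : Module.End ℚ A.H1) : EndC A := Matrix.of fun i j => (X (Pi.single j 1) i : ℂ)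

/-- The derived algebra `[𝔤, 𝔤]`. -/
def derivedLie : Submodule ℚ (Module.End ℚ A.H1) :=
  Submodule.span ℚ {Z | ∃ X, InLie A X ∧ ∃ Y, InLie A Y ∧ Z = X * Y - Y * X}

/-! ### Planes -/

/-- The matrix of the action of the endomorphism `X` of `H_1(A, ℚ)` on the direct summand of
`H_1(A, ℂ)` with the inclusion `P` and the projection `Q`. -/
def onPlane (P : Matrix (Fin (2 * g)) (Fin 2) ℂ) (Q : Matrix (Fin 2) (Fin (2 * g)) ℂ)
    (X : Module.End ℚ A.H1) : Matrix (Fin 2) (Fin 2) ℂ := Q * toC A X * P

/-- **A plane**: a direct summand of dimension two of the `𝔤`-module `H_1(A, ℂ)` which is a simple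
module; `P` is the inclusion and `Q` is the projection, so the projector `P * Q` commutes with `𝔤`. -/
structure IsPlane (P : Matrix (Fin (2 * g)) (Fin 2) ℂ) (Q : Matrix (Fin 2) (Fin (2 * g)) ℂ) :
    Prop where
  /-- `Q` is a projection to the summand -/
  proj : Q * P = 1
  /-- the image of `P * Q` and its complement are stable under `𝔤` -/
  stable : ∀ X, InLie A X → P * Q * toC A X = toC A X * (P * Q)
  /-- there is no stable line -/
  simple : ∀ v : Fin 2 → ℂ, v ≠ 0 → ∃ X, InLie A X ∧ ∀ c : ℂ, onPlane A P Q X *ᵥ v ≠ c • v

section pairs

variable {k : ℕ} (P : Fin k → Matrix (Fin (2 * g)) (Fin 2) ℂ)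
  (Q : Fin k → Matrix (Fin 2) (Fin (2 * g)) ℂ)

/-- Two planes have the same colour if `[𝔤, 𝔤]` acts on them by equivalent representations. -/
def SameColour (i j : Fin k) : Prop :=
  ∃ Z : Matrix (Fin 2) (Fin 2) ℂ, Z.det ≠ 0 ∧ ∀ X ∈ derivedLie A,
    Z * onPlane A (P i) (Q i) X = onPlane A (P j) (Q j) X * Z

/-- Two planes are linked if there are two planes of the same colours on which all the elements of `𝔤`
have equal traces. -/
def Linked (i j : Fin k) : Prop :=
  ∃ i' j', SameColour A P Q i i' ∧ SameColour A P Q j j' ∧
    ∀ X, InLie A X → (onPlane A (P i') (Q i') X).trace = (onPlane A (P j') (Q j') X).trace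

/-- The plane `i` is separated from the plane `j` if for some automorphism `s` of the field `ℂ` the
conjugate with `s` of the `[𝔤, 𝔤]`-module `i` belongs to a real form `sl(2, ℝ)` of `sl(2)`, and the
conjugate of the module `j` belongs to the compact real form `su(2)`: the conjugates of the traces of
the squares are real numbers, for `i` sometimes positive, and for `j` never. -/
def Separated (i j : Fin k) : Prop :=
  ∃ s : ℂ ≃+* ℂ,
    (∀ X ∈ derivedLie A, ∃ ρ : ℝ, s ((onPlane A (P i) (Q i) X * onPlane A (P i) (Q i) X).trace) = ρ) ∧
    (∃ X ∈ derivedLie A, ∃ ρ : ℝ, 0 < ρ ∧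
      s ((onPlane A (P i) (Q i) X * onPlane A (P i) (Q i) X).trace) = ρ) ∧
    ∀ X ∈ derivedLie A, ∃ ρ : ℝ, ρ ≤ 0 ∧
      s ((onPlane A (P j) (Q j) X * onPlane A (P j) (Q j) X).trace) = ρ

/-- **A family of planes** in `H_1(A, ℂ)`: every two of the planes have the same colour, or are linked,
or one of them is separated from the other. -/
structure PlanarFamily : Prop where
  /-- simple direct summands of dimension two -/
  plane : ∀ i, IsPlane A (P i) (Q i)
  /-- the condition on the pairs of planes -/
  pairs : ∀ i j, SameColour A P Q i j ∨ Linked A P Q i j ∨ Separated A P Q i j ∨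
    Separated A P Q j i

end pairs

/-! ### Motives -/

variable {s n : ℕ} (r : Fin s → ℕ) (w : Fin s → ℤ)

/-- The Betti realization of the sum of the motives `h^1(A) ^ {⊗ r i} (w i)`: families of multilinear
forms in `r i` variables in the rational homology. -/
abbrev Tensors : Type := ∀ i : Fin s, MultilinearMap ℚ (fun _ : Fin (r i) => A.H1) ℚ

variable {A r}

/-- `M` is the matrix of the action of the endomorphism `X` of the rational homology of `A` (as a
derivation) on the space of tensors with the basis `B`. -/
def IsLieMatrix (B : Fin n → Tensors A r) (X : Module.End ℚ A.H1)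
    (M : Matrix (Fin n) (Fin n) ℚ) : Prop :=
  ∀ a i v, ∑ k, B a i (Function.update v k (X (v k))) = ∑ b, M b a * B b i v

/-- The subspace with the basis `B` is the Betti realization of a direct factor `M` of the sum of the
motives `h^1(A) ^ {⊗ r i} (w i)`, and `P` is the matrix of the periods of `M` for the basis `B` and for
some basis of the de Rham realization of `M` over `ℚ̄`. -/
structure IsMotive (B : Fin n → Tensors A r) (P : Matrix (Fin n) (Fin n) ℂ) : Prop where
  /-- `B` is a basis of a subspace -/
  basis : LinearIndependent ℚ B
  /-- the subspace is stable under `𝔤` -/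
  lie : ∀ X, InLie A X → ∃ M : Matrix (Fin n) (Fin n) ℚ, IsLieMatrix B X M
  /-- the subspace is stable under the weights -/
  weight : ∃ M : Matrix (Fin n) (Fin n) ℚ, ∀ a i v,
    ((r i : ℚ) - 2 * w i) * B a i v = ∑ b, M b a * B b i v
  /-- the de Rham realization has a basis of elements with algebraic coefficients in terms of the
  tensor products of the elements of the basis of `H^1_dR(A / ℚ̄)` -/
  deRham : ∃ c : Fin n → ∀ i : Fin s, (Fin (r i) → Fin g ⊕ Fin g) → ℂ,
    (∀ a i J, IsAlgebraic ℚ (c a i J)) ∧ ∀ a i (v : Fin (r i) → A.H1),
      ∑ J, c a i J * ∏ k, A.dR (J k) (v k) =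
        (2 * Real.pi * Complex.I) ^ (w i) * ∑ b, P b a * (B b i v : ℂ)
  /-- the matrix of the periods is invertible -/
  det : P.det ≠ 0

/-! ### The Mumford-Tate domain -/

/-- `N` is the matrix of the action on `M` of the multiplication with `i` on `H_1(A, ℝ) = ℂ ^ g` (as a
derivation): the generator of the Lie algebra of the circle in the Hodge structure of `M`. -/
def IsComplex (B : Fin n → Tensors A r) (N : Matrix (Fin n) (Fin n) ℝ) : Prop :=
  ∀ a i (j : Fin (r i) → Fin (2 * g)),
    ∑ k, ∑ l : Fin (2 * g), A.lam.repr (Complex.I • A.lam (j k)) l *
        (B a i (Function.update (fun p => Pi.single (j p) 1) k (Pi.single l 1)) : ℝ) =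
      ∑ b, N b a * (B b i (fun p => Pi.single (j p) 1) : ℝ)

variable (A) in
/-- The part of the Hodge group which acts trivially on the images of the projectors `E i` acts
trivially on the Mumford-Tate domain of `M`: if an element of `[𝔤, 𝔤] ⊗ ℂ`, which acts on `H_1(A, ℂ)`
by `p.1` and on `M` by `p.2`, acts trivially on the images of all the `E i`, then `p.2` commutes with
the complex structure `N` of `M`. -/
def DomainOf {k : ℕ} (E : Fin k → EndC A) (B : Fin n → Tensors A r)
    (N : Matrix (Fin n) (Fin n) ℝ) : Prop :=
  ∀ p ∈ Submodule.span ℂ {p : EndC A × Matrix (Fin n) (Fin n) ℂ | ∃ X ∈ derivedLie A,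
      ∃ M : Matrix (Fin n) (Fin n) ℚ, IsLieMatrix B X M ∧
        p = (toC A X, M.map fun q => (q : ℂ))},
    (∀ i, E i * p.1 = 0) → p.2 * N.map (fun x => (x : ℂ)) = N.map (fun x => (x : ℂ)) * p.2

/-- The Lie algebra of the Hodge group of `M`: the smallest rational Lie algebra whose real span
contains the complex structure `N`. -/
def hodgeLie (N : Matrix (Fin n) (Fin n) ℝ) : Submodule ℚ (Matrix (Fin n) (Fin n) ℚ) :=
  sInf {L | (∀ x ∈ L, ∀ y ∈ L, x * y - y * x ∈ L) ∧
    N ∈ Submodule.span ℝ {M | ∃ x ∈ L, M = x.map fun q => (q : ℝ)}}

/-- The derived algebra. -/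
def derived (L : Submodule ℚ (Matrix (Fin n) (Fin n) ℚ)) :
    Submodule ℚ (Matrix (Fin n) (Fin n) ℚ) :=
  Submodule.span ℚ {z | ∃ x ∈ L, ∃ y ∈ L, z = x * y - y * x}

/-- The centre of the Lie algebra acts trivially: an element of `𝔤` which acts on `M` like a central
element acts trivially. -/
def NoCentre (B : Fin n → Tensors A r) : Prop :=
  ∀ X, InLie A X → (∀ Y, InLie A Y → IsLieMatrix B (X * Y - Y * X) 0) → IsLieMatrix B X 0

/-! ### Algebraic groups, torsors and the Mumford-Tate group -/

/-- A subgroup of `GL_R(ℂ)` defined by polynomials with rational coefficients. -/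
def IsAlgSubgroup {R : Type} [Fintype R] [DecidableEq R] (G : Subgroup (GL R ℂ)) : Prop :=
  ∃ I : Set (MvPolynomial (R × R) ℚ), ∀ x : GL R ℂ, x ∈ G ↔
    ∀ p ∈ I, MvPolynomial.aeval (fun b : R × R => (x : Matrix R R ℂ) b.1 b.2) p = 0

/-- The torsor `G · T⁻¹` of `G`: the matrices `F` such that `F T` is an element of `G`. It is
defined over `ℚ̄` if `T` is a matrix with algebraic entries. -/
def torsor (G : Subgroup (GL (Fin n) ℂ)) (T : Matrix (Fin n) (Fin n) ℂ) :
    Set (Matrix (Fin n) (Fin n) ℂ) :=
  {F | ∃ x ∈ G, (x : Matrix (Fin n) (Fin n) ℂ) = F * T}

variable (A) in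
/-- The Hodge structure of `H^1(A)`: the complex number `z` acts on `H_1(A, ℝ) = ℂ ^ g` by
multiplication, and on `H^1(A, ℝ)` by the transposed map, here in the basis of `H^1(A, ℚ)` which is
dual to the basis of the lattice. -/
def hodge (z : ℂ) : Matrix (Fin (2 * g)) (Fin (2 * g)) ℂ :=
  Matrix.of fun i j => ((A.lam.repr (z • A.lam i) j : ℝ) : ℂ)

/-- `R` is the matrix of the action of the complex number `z` on `M`, in the Hodge structure given by
those of `H^1(A)` and of the Tate motives (`z` acts on `ℚ(1)` by `(z z̄)⁻¹`). -/
def IsHodgeMatrix (B : Fin n → Tensors A r) (z : ℂ) (R : Matrix (Fin n) (Fin n) ℂ) : Prop :=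
  ∀ a i (j : Fin (r i) → Fin (2 * g)),
    ∑ j' : Fin (r i) → Fin (2 * g), (∏ k, hodge A z (j k) (j' k)) *
        (B a i (fun k => Pi.single (j' k) 1) : ℂ) =
      (z * (starRingEnd ℂ) z) ^ (w i) * ∑ b, R b a * (B b i (fun k => Pi.single (j k) 1) : ℂ)

/-- The Mumford-Tate group of `M`: the smallest algebraic group over `ℚ` which contains the image of
the Deligne torus. -/
def mumfordTate (B : Fin n → Tensors A r) : Subgroup (GL (Fin n) ℂ) :=
  sInf {G | IsAlgSubgroup G ∧ ∀ z : ℂ, z ≠ 0 → ∃ x ∈ G,
    IsHodgeMatrix w B z (x : Matrix (Fin n) (Fin n) ℂ)}

variable (A) in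
/-- There is no factor of type IV: the Rosati involution is trivial on the centre of the algebra of
the endomorphisms, that is, the centre contains no nonzero element which is skew-symmetric for the
polarization `A.om`. (The endomorphisms of the de Rham-Betti object `H_1(A)` are the endomorphisms of
`A` by the theorem of Bost, which is proved in `Pool.Agent.Y102.AbVar.hodge_end`.) -/
def NoTypeIV : Prop :=
  ∀ P : Module.End ℚ A.H1, IsDeRhamBettiEnd QBar A.dR P →
    (∀ Q : Module.End ℚ A.H1, IsDeRhamBettiEnd QBar A.dR Q → P * Q = Q * P) →
    (∀ u v, A.om (P u) v + A.om u (P v) = 0) → P = 0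

/-- **Theorem.** Let the `W i`, with the inclusions `PW i` and the projections `QW i`, be a family of
planes in `H_1(A, ℂ)`. Let `M` be a motive in the tensor category generated by `h^1(A)` and the Tate
motives, with the matrix `P` of periods and the complex structure `N`, such that the part of the Hodge
group of `A` which acts trivially on the planes acts trivially on the Mumford-Tate domain of `M`. Let
`G` be an algebraic group over `ℚ` with a torsor over `ℚ̄` which contains `P`.

1. For all elements `Z` of the derived algebra of the Lie algebra of the Hodge group of `M` and all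
   complex numbers `t` the matrix `exp (t Z)` is in `G`.
2. If `A` has no factor of type IV, or if the centre acts trivially on `M`, then the Mumford-Tate group
   of `M` is contained in `G`. -/
theorem result {g s n k : ℕ} (A : AbVar g)
    (PW : Fin k → Matrix (Fin (2 * g)) (Fin 2) ℂ) (QW : Fin k → Matrix (Fin 2) (Fin (2 * g)) ℂ)
    (hA : PlanarFamily A PW QW) (r : Fin s → ℕ) (w : Fin s → ℤ)
    (B : Fin n → Tensors A r) (P : Matrix (Fin n) (Fin n) ℂ) (hM : IsMotive w B P)
    (N : Matrix (Fin n) (Fin n) ℝ) (hN : IsComplex B N)
    (hD : DomainOf A (fun i => PW i * QW i) B N)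
    (G : Subgroup (GL (Fin n) ℂ)) (hG : IsAlgSubgroup G) (T : Matrix (Fin n) (Fin n) ℂ)
    (hT : ∀ i j, IsAlgebraic ℚ (T i j)) (hP : P ∈ torsor G T) :
    (∀ Z ∈ derived (hodgeLie N), ∀ t : ℂ, ∃ x ∈ G,
      (x : Matrix (Fin n) (Fin n) ℂ) = NormedSpace.exp (t • Z.map fun q => (q : ℂ))) ∧
    (NoTypeIV A ∨ NoCentre B → mumfordTate w B ≤ G) := by
  have hrig := U400.PD.det_of (A := A) (P := PW) (Q := QW)
    (fun i => ⟨(hA.plane i).proj, (hA.plane i).stable, (hA.plane i).simple⟩)
    (fun i j => hA.pairs i j)
  obtain ⟨hM', Wt, hW⟩ : N208.AM.Mot w B P ∧ ∃ Wt, N208.AM.WRel w B Wt := by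
    have hwt : ∃ M, N208.AM.WRel w B M := by
      obtain ⟨M, h⟩ := hM.weight
      refine ⟨M, fun a i => MultilinearMap.ext fun v => ?_⟩
      rw [_root_.smul_apply, _root_.sum_apply, smul_eq_mul, h a i v]
      rfl
    refine ⟨⟨hM.basis, fun X hX => ?_, hwt, hM.det, hM.deRham⟩, hwt⟩
    obtain ⟨M, h⟩ := hM.lie X hX
    refine ⟨M, fun a i => MultilinearMap.ext fun v => ?_⟩
    rw [N208.AM.dact_apply, _root_.sum_apply, h a i v]
    rfl
  have hrelL : ∀ X M, N208.AM.Rel B X M ↔ IsLieMatrix B X M := by
    intro X M
    constructor
    · intro h a i v
      have h1 := congrArg (fun φ : MultilinearMap ℚ (fun _ : Fin (r i) => A.H1) ℚ => φ v) (h a i)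
      simp only [N208.AM.dact_apply, _root_.sum_apply, _root_.smul_apply, smul_eq_mul] at h1
      exact h1
    · intro h a i
      refine MultilinearMap.ext fun v => ?_
      rw [N208.AM.dact_apply, _root_.sum_apply, h a i v]
      rfl
  have hb : ∀ j : Fin (2 * g), A.bas j = Pi.single j 1 := fun j => by
    unfold AbVar.bas
    rw [Pi.basisFun_apply]
  have hrel : ∀ z R, N208.AM.HRel w B z R → IsHodgeMatrix w B z R := by
    intro z R h a i j
    have h1 := h a i j
    simp only [hb] at h1
    exact h1
  have hA' : NoTypeIV A → N208.AM.NT4 A := fun hA P hP hc hs =>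
    hA P (A.mem_EA.1 hP) (fun Q hQ => hc Q (A.mem_EA.2 hQ)) hs
  have hNC : NoCentre B → N208.AM.NoCentre B := fun hc X hX h =>
    (hrelL X 0).2 (hc X hX fun Y hY => (hrelL _ 0).1 (h Y hY))
  -- the complex structure
  have hNR : N208.AM.RelR B AbVar.JJ N := by
    intro a i
    refine Basis.ext_multilinear (fun _ => A.lam) fun j => ?_
    have h1 := hN a i j
    rw [N208.AM.dact_apply, _root_.sum_apply]
    have h2 : (fun p => A.lam (j p)) = fun p => A.per (Pi.single (j p) 1) := by
      funext p
      rw [← hb, A.per_bas]
    have h3 : ∀ b, (N b a • A.Phi (B b i)) (fun p => A.lam (j p)) =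
        N b a * (B b i (fun p => Pi.single (j p) 1) : ℝ) := fun b => by
      rw [_root_.smul_apply, smul_eq_mul, h2, A.Phi_per]
    rw [Finset.sum_congr rfl fun b _ => h3 b, ← h1]
    refine Finset.sum_congr rfl fun k _ => ?_
    rw [AbVar.JJ_apply, ← A.lam.sum_repr (Complex.I • A.lam (j k)), MultilinearMap.map_update_sum]
    simp only [A.lam.sum_repr]
    refine Finset.sum_congr rfl fun l _ => ?_
    rw [MultilinearMap.map_update_smul, smul_eq_mul]
    congr 1
    have h4 : A.lam l = A.per (Pi.single l 1) := by rw [← hb, A.per_bas]
    rw [h2, h4, N208.AM.update_per, A.Phi_per]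
  have hα : ∀ p ∈ N113.BT.pC B (Pool.Agent.Y102.der A.NA),
      (∀ i, matE (2 * g) (PW i * QW i) * p.1 = 0) →
      p.2 * N208.AM.cxm N = N208.AM.cxm N * p.2 := by
    refine U400.PD.alpha_of fun p hp h0 => ?_
    refine hD p ?_ h0
    refine (Submodule.span_mono ?_) hp
    rintro _ ⟨X, hX, M, hM, rfl⟩
    refine ⟨X, ?_, M, (hrelL _ _).1 hM, rfl⟩
    refine (Submodule.span_mono ?_) hX
    rintro _ ⟨X, hX, Y, hY, rfl⟩
    exact ⟨X, hX, Y, hY, rfl⟩
  -- the group
  have hdet : T.det ≠ 0 := by
    obtain ⟨x, -, hxT⟩ := hP
    intro h0
    have h1 : (x : Matrix (Fin n) (Fin n) ℂ).det = 0 := by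
      rw [hxT, Matrix.det_mul, h0, mul_zero]
    exact (Matrix.GeneralLinearGroup.det x).ne_zero h1
  obtain ⟨T', h1, h2⟩ := Pool.Agent.R917.alg_inv hT hdet
  obtain ⟨x, hx, hxT⟩ := hP
  have hH : N208.AM.PtM P _ := ⟨Pool.Agent.R917.algGrp_of hG, T, T', h1, h2, x, hx, hxT⟩
  refine ⟨fun Z hZ t => ?_, fun hA => ?_⟩
  · obtain ⟨L, hL1, hL2, hL3⟩ := U400.PD.main_der hM' hW hH hrig hNR hα
    have h3 : hodgeLie N ≤ L := sInf_le ⟨hL1, hL2⟩
    have h4 : derived (hodgeLie N) ≤
        N208.AM.LQ {M | ∃ x ∈ G, (x : Matrix (Fin n) (Fin n) ℂ) = M} := by
      unfold derived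
      rw [Submodule.span_le]
      rintro _ ⟨x, hx, y, hy, rfl⟩
      exact hL3 x (h3 hx) y (h3 hy)
    exact Pool.Agent.R917.exp_mem hH.grp fun d => (h4 hZ d).smul t
  · have hc : N208.AM.NoCentre B := hA.elim
      (fun h => N208.AM.noCentre_of_NT4 hM' (hA' h)) hNC
    refine sInf_le ⟨hG, fun z hz => ?_⟩
    obtain ⟨⟨x, hx, hx'⟩, h4⟩ := U400.PD.main_B hM' hW hH hc hrig hNR hα hz
    refine ⟨x, hx, ?_⟩
    rw [hx']
    exact hrel _ _ h4

end Pool.Agent.Results.MP_caab05_ag.PolydiscMotives
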