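import Pool.Agent.U226.HF.Weak

/-!
# The weak form of the period conjecture is a bound for the number of independent products of periods

Let `X` be a smooth projective variety over `ℚ̄`, `c` its period matrix (an `N × N`-matrix), `Ω` the torsor of
its motivic Galois group `G = G_mod(X)` which contains `c`, defined by the classes of the motivated cycles
on the powers of `X`. Put

* `p n` = the largest number of products of at most `n` entries of `c` which are linearly independent over
  `ℚ̄`,
* `m n` = the largest number of products of at most `n` matrix entries which are linearly independent over
  `ℚ̄` as functions on `Ω`.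

We prove, for ALL `X`:

1. `trdeg ℚ̄(c) = dim G` if and only if `m n / p n` is bounded.
2. In this case `m n / p n` converges to an integer `K ≥ 1`, the number of the irreducible components of `Ω`
   (that is, of `G`), and `m n ≤ K p n` for all `n`.
3. If `trdeg ℚ̄(c) < dim G` then there is `ε > 0` with `m n ≥ ε (n + 1) p n` for ALL `n`.

So there is nothing between: the numbers `m n / p n` are bounded by the number of the components of `G`, or they
grow at least linearly; and a single infinite set of `n` on which `m n / (n p n)` tends to `0` would prove
the conjecture for `X`.

The proof of 1 and 2: the ideal `𝔭` of the relations of `c` over `ℚ̄` and its translates under `G(ℚ̄)` have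
the same Hilbert function and are pairwise incomparable, their intersection is the ideal of `Ω`
(Nullstellensatz); if there are `r` translates, they can be separated by polynomials of some degree
`e`, so that `r p n ≤ m (n + e)`, and the growth `(n + 1) m (n + 1) ≤ (n + 1 + N²) m n` shows
that `m n / p n` tends to the number of the translates. The numbers `p n` and `m n` are of the exact orders
`n ^ (trdeg ℚ̄(c))` and `n ^ (dim Ω)` (proved by counting standard monomials).

In the Lean statement `N`, `c` and the set `S` are arbitrary: `S` is any set of pairs of tensors
`(dR, B)` of degree `n` (in coordinates), `dR` with coefficients in `ℚ̄`, `B` with rational coefficients, with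
weight `k` and `c^{⊗ n} (dR) = (2 π i) ^ k B`. For the question: the pairs of the classes of the motivated
cycles of codimension `k` on `X ^ n`. The torsor `torsor S ℂ` consists of the invertible complex matrices `f`
with `f^{⊗ n} (dR) = l ^ k B` for all pairs in `S`, for some `l ≠ 0`; its dimension (which is `dim G`) is the
largest number of the matrix entries which are algebraically independent over `ℚ̄` as functions on it.
-/

set_option autoImplicit false

open Filter Topology

namespace Pool.Agent.Results.MP_caab05_ag.WeakFormGap

open Pool.Agent.U226.HF

/-- **The weak form of the period conjecture and the number of independent products of periods.** -/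
theorem result {N : ℕ} (S : Set (TensorPair Qbar N)) (c : Fin N × Fin N → ℂ)
    (hc : IsPeriodMatrix S c) (p m : ℕ → ℕ) (hp : ∀ n, p n = numProd Qbar c n)
    (hm : ∀ n, m n = numProd Qbar (entries (torsor S ℂ)) n) :
    (WeakPeriodConjecture S c ↔ ∃ C : ℕ, ∀ n, m n ≤ C * p n) ∧
    (WeakPeriodConjecture S c → ∃ K : ℕ, 1 ≤ K ∧ (torsorIdeal S).minimalPrimes.encard = K ∧
      (∀ n, m n ≤ K * p n) ∧ Tendsto (fun n => (m n : ℝ) / p n) atTop (𝓝 K)) ∧
    (¬ WeakPeriodConjecture S c → ∃ ε : ℝ, 0 < ε ∧ ∀ n : ℕ, ε * (n + 1) * p n ≤ m n) := by
  obtain rfl := funext hp
  obtain rfl := funext hm
  exact weak_law hc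

end Pool.Agent.Results.MP_caab05_ag.WeakFormGap
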